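import Pool.Agent.H67.AG.T1

/-!
ABSOLUTE GAP (`MP_c59857_nt`): row RS. A rational set is nearly equal to a set which is
invariant under a given highly divisible power of `T`.
-/

set_option autoImplicit false

open MeasureTheory ProbabilityTheory Filter Topology Finset
open scoped Nat ENNReal

namespace Pool.Agent.H77.AG

open Pool.Agent.H67.AG

theorem rt_le {Ω : Type} [mΩ : MeasurableSpace Ω] (T : Ω ≃ᵐ Ω) : Rt T ≤ mΩ :=
  iSup_le fun _ => MeasurableSpace.invariants_le _

theorem pf_RS (h : T_LV) : T_RS := by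
  intro Ω mΩ P hP T A ε hA hε
  have hAm : MeasurableSet A := rt_le T A hA
  set f : Ω → ℝ := A.indicator (fun _ => (1 : ℝ)) with hf
  have hfm : Measurable f := measurable_const.indicator hAm
  have hfR : StronglyMeasurable[Rt T] f :=
    (@stronglyMeasurable_const Ω ℝ (Rt T) _ (1 : ℝ)).indicator hA
  have hfb : ∀ ω, |f ω| ≤ 1 := by
    intro ω
    by_cases hω : ω ∈ A
    · rw [hf, Set.indicator_of_mem hω]
      norm_num
    · rw [hf, Set.indicator_of_notMem hω]
      norm_num
  have hfi : Integrable f P := (integrable_const (1 : ℝ)).indicator hAm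
  have hce : P[f | Rt T] = f := condExp_of_stronglyMeasurable (rt_le T) hfR hfi
  obtain ⟨w₀, hw₀⟩ := h Ω P T f (ε / 2) hfm ⟨1, hfb⟩ (by positivity)
  refine ⟨w₀, fun W hW hdvd => ?_⟩
  have hint := hw₀ W hW hdvd
  rw [hce] at hint
  have hgs : StronglyMeasurable[Inv T W] (P[f | Inv T W]) := stronglyMeasurable_condExp
  refine ⟨{ω | 1 / 2 < (P[f | Inv T W]) ω}, ?_, ?_⟩
  · exact hgs.measurable (measurableSet_Ioi (a := (1 / 2 : ℝ)))
  have hdi : Integrable (fun ω => |f ω - (P[f | Inv T W]) ω|) P :=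
    (hfi.sub integrable_condExp).abs
  have hM := mul_meas_ge_le_integral_of_nonneg (μ := P)
    (f := fun ω => |f ω - (P[f | Inv T W]) ω|)
    (Eventually.of_forall fun ω => abs_nonneg _) hdi (1 / 2)
  have hsub : symmDiff A {ω | 1 / 2 < (P[f | Inv T W]) ω} ⊆
      {ω | 1 / 2 ≤ |f ω - (P[f | Inv T W]) ω|} := by
    intro ω hω
    change 1 / 2 ≤ |f ω - (P[f | Inv T W]) ω|
    rcases hω with ⟨h1, h2⟩ | ⟨h1, h2⟩
    · have h2' : ¬ (1 / 2 < (P[f | Inv T W]) ω) := h2
      rw [not_lt] at h2'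
      have h3 : f ω = 1 := by rw [hf, Set.indicator_of_mem h1]
      rw [h3]
      refine le_trans ?_ (le_abs_self _)
      linarith
    · have h1' : 1 / 2 < (P[f | Inv T W]) ω := h1
      have h3 : f ω = 0 := by rw [hf, Set.indicator_of_notMem h2]
      rw [h3]
      refine le_trans ?_ (neg_le_abs _)
      linarith
  have hmono : P.real (symmDiff A {ω | 1 / 2 < (P[f | Inv T W]) ω}) ≤
      P.real {ω | 1 / 2 ≤ |f ω - (P[f | Inv T W]) ω|} := measureReal_mono hsub
  linarith

end Pool.Agent.H77.AG
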