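import Pool.Agent.H80.AG.Targets9
import Pool.Agent.H18.T2.EN2
import Pool.Agent.H59.MR.Cov
import Pool.Agent.H24.T2.Cell

/-!
ABSOLUTE GAP (`MP_c59857_nt`), row ENS: entropy decrement for the modulus `Q w!`.
-/

set_option autoImplicit false

open Filter Topology Finset
open scoped Nat

namespace Pool.Agent.H77.AG

open Pool.Agent.H67.AG Pool.Agent.H80.AG
open Pool.Agent.H24.MR (lam dens FinAddInv)
open Pool.Agent.H24.T2 (Pset rel StatementEN2 Dec fa_fiber)
open Pool.Agent.H59.MR (tendsto_dens finAddInv_dens fai_mono fai_shift' fai_empty lam_or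
  class_split)

variable {ν : Set ℕ → ℝ}

/-- the measure of a residue class -/
theorem en_class (h : FinAddInv ν) (Q c : ℕ) (hQ : 0 < Q) :
    ν {y | y ≡ c [MOD Q]} = 1 / Q := by
  have h1 : ∀ v ∈ range Q, ν {n | n ∈ (Set.univ : Set ℕ) ∧ n % Q = v} =
      ν {y | y ≡ c [MOD Q]} := by
    intro v hv
    rw [mem_range] at hv
    rw [← fai_shift' h (c + (Q - v)) {y | y ≡ c [MOD Q]}]
    congr 1
    ext n
    simp only [Set.mem_univ, true_and, Set.mem_ofPred_eq]
    constructor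
    · intro hn
      have h2 : n + (c + (Q - v)) ≡ v + (c + (Q - v)) [MOD Q] := by
        apply Nat.ModEq.add_right
        rw [Nat.ModEq, hn, Nat.mod_eq_of_lt hv]
      refine h2.trans ?_
      have h3 : v + (c + (Q - v)) = c + Q := by omega
      rw [h3]
      exact Nat.add_modEq_right
    · intro hn
      have h2 : n + (c + (Q - v)) ≡ v + (c + (Q - v)) [MOD Q] := by
        have h3 : v + (c + (Q - v)) = c + Q := by omega
        rw [h3]
        exact hn.trans Nat.add_modEq_right.symm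
      have h4 := Nat.ModEq.add_right_cancel' _ h2
      rw [Nat.ModEq, Nat.mod_eq_of_lt hv] at h4
      exact h4
  have h2 := fa_fiber h (fun n => n % Q) (range Q) (fun n => mem_range.2 (Nat.mod_lt _ hQ))
    Set.univ
  rw [h.univ, sum_congr rfl h1, sum_const, card_range, nsmul_eq_mul] at h2
  have hQ0 : (0 : ℝ) < Q := by exact_mod_cast hQ
  rw [eq_div_iff hQ0.ne']
  linarith

/-- the measure of the multiples of `p` in a residue class -/
theorem en_mult (h : FinAddInv ν) (Q c p : ℕ) (hQ : 0 < Q) (hp : 0 < p) (hc : Nat.Coprime Q p) :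
    ν {y | y ≡ c [MOD Q] ∧ p ∣ y} = 1 / (p * Q) := by
  obtain ⟨k, hk1, hk2⟩ := Nat.chineseRemainder hc c 0
  have h1 : {y : ℕ | y ≡ c [MOD Q] ∧ p ∣ y} = {y | y ≡ k [MOD Q * p]} := by
    ext y
    simp only [Set.mem_ofPred_eq]
    rw [← Nat.modEq_and_modEq_iff_modEq_mul hc]
    constructor
    · rintro ⟨h2, h3⟩
      exact ⟨h2.trans hk1.symm, (Nat.modEq_zero_iff_dvd.2 h3).trans hk2.symm⟩
    · rintro ⟨h2, h3⟩
      exact ⟨h2.trans hk1, Nat.modEq_zero_iff_dvd.1 (h3.trans hk2)⟩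
  rw [h1, en_class h _ _ (Nat.mul_pos hQ hp)]
  push_cast
  rw [mul_comm]

theorem en_rel {k : ℕ} (β : Fin k → ℕ) (p y : ℕ) : rel β lam p y = 1 ∨ rel β lam p y = -1 := by
  unfold rel
  refine Finset.prod_induction _ (fun x : ℝ => x = 1 ∨ x = -1) ?_ (Or.inl rfl)
    fun i _ => lam_or _
  rintro a b (ha | ha) (hb | hb) <;> rw [ha, hb] <;> norm_num

theorem en_good {k Q w i m : ℕ} (β : Fin k → ℕ) (η : ℝ) (hQ : 0 < Q) (hη : 0 < η) (hη1 : η < 1)
    (U : Ultrafilter ℕ) (N : ℕ → ℕ) (hN : Tendsto N (U : Filter ℕ) atTop)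
    (hne : (Pset (Q * w !) m).Nonempty) (hR : RelAt η Q β U N m)
    (hD : ∀ u ∈ range (Q * w !), Dec β (dens U N) lam (Q * w !) u
      (1 / (((i : ℝ) + 1) * (Q * w ! : ℕ))) m) :
    ∃ c b, GoodAt η Q β U N w i m c b := by
  classical
  have hν : FinAddInv (dens U N) := finAddInv_dens hN
  set W : ℕ := Q * w ! with hW
  have hW0 : 0 < W := Nat.mul_pos hQ (Nat.factorial_pos w)
  have hQr : (0 : ℝ) < Q := by exact_mod_cast hQ
  have hWr : (0 : ℝ) < W := by exact_mod_cast hW0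
  have hir : (0 : ℝ) < (i : ℝ) + 1 := by positivity
  set θ : ℝ := 1 / (((i : ℝ) + 1) * (W : ℕ)) with hθ
  have hθ0 : 0 < θ := by positivity
  have hW1 : (1 : ℝ) ≤ W := by exact_mod_cast hW0
  have hθ1 : θ ≤ 1 / ((i : ℝ) + 1) := by
    rw [hθ]
    apply one_div_le_one_div_of_le hir
    nlinarith
  have hQW : Q ∣ W := Dvd.intro _ rfl
  have hPs : ∀ p ∈ Pset W m, p ∈ Pset Q m ∧ 0 < p ∧ Nat.Coprime Q p := by
    intro p hp
    unfold Pset at hp ⊢
    rw [mem_filter] at hp ⊢
    have h1 : p ≡ 1 [MOD Q] := hp.2.2.of_dvd hQW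
    refine ⟨⟨hp.1, hp.2.1, h1⟩, hp.2.1.pos, ?_⟩
    have h2 : Nat.gcd p Q = Nat.gcd 1 Q := h1.gcd_eq
    rw [Nat.gcd_one_left] at h2
    exact (Nat.coprime_comm.1 h2)
  obtain ⟨c, σ, hσ, hrel⟩ := hR
  -- the sign
  have hsg : ∃ b : Bool, sg b = σ := by
    by_cases h1 : σ = 1
    · exact ⟨true, by simp [sg, h1]⟩
    by_cases h2 : σ = -1
    · exact ⟨false, by simp [sg, h2]⟩
    exfalso
    obtain ⟨p, hp⟩ := hne
    obtain ⟨hp1, hp2, hp3⟩ := hPs p hp
    have h3 := hrel p hp1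
    have h4 : {y | y ≡ c [MOD Q] ∧ p ∣ y ∧ rel β lam p y ≠ σ} = {y | y ≡ c [MOD Q] ∧ p ∣ y} := by
      ext y
      simp only [Set.mem_ofPred_eq]
      constructor
      · rintro ⟨h5, h6, _⟩
        exact ⟨h5, h6⟩
      · rintro ⟨h5, h6⟩
        refine ⟨h5, h6, fun h7 => ?_⟩
        rcases en_rel β p y with h8 | h8
        · exact h1 (h7.symm.trans h8)
        · exact h2 (h7.symm.trans h8)
    rw [h4, en_mult hν Q c p hQ hp2 hp3] at h3
    have hpr : (0 : ℝ) < p := by exact_mod_cast hp2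
    rw [div_le_div_iff_of_pos_right (by positivity)] at h3
    linarith
  obtain ⟨b, hb⟩ := hsg
  refine ⟨c % Q, b, Nat.mod_lt _ hQ, ?_⟩
  have hcc : ∀ y : ℕ, y ≡ c % Q [MOD Q] ↔ y ≡ c [MOD Q] := by
    intro y
    simp only [Nat.ModEq, Nat.mod_mod]
  simp only [hcc]
  rw [hb]
  choose! X hX1 hX2 using hD
  set Y : Finset ℕ := (range W).biUnion X with hY
  have hYc : (Y.card : ℝ) ≤ 1 / ((i : ℝ) + 1) * (Pset W m).card := by
    have h1 : (Y.card : ℝ) ≤ ∑ u ∈ range W, ((X u).card : ℝ) := by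
      exact_mod_cast card_biUnion_le
    have h2 : ∑ u ∈ range W, ((X u).card : ℝ) ≤ ∑ _u ∈ range W, θ * (Pset W m).card :=
      sum_le_sum hX1
    rw [sum_const, card_range, nsmul_eq_mul] at h2
    refine h1.trans (h2.trans (le_of_eq ?_))
    rw [hθ]
    field_simp
  have hbound : ∀ p ∈ Pset W m, dens U N {y | y ≡ c [MOD Q] ∧ rel β lam p y ≠ σ} ≤
      (10 * η + θ) / Q + (if p ∈ Y then 1 / (Q : ℝ) else 0) := by
    intro p hp
    obtain ⟨hp1, hp2, hp3⟩ := hPs p hp
    have hpr : (0 : ℝ) < p := by exact_mod_cast hp2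
    split_ifs with hpY
    · have h1 : dens U N {y | y ≡ c [MOD Q] ∧ rel β lam p y ≠ σ} ≤ 1 / Q := by
        rw [← en_class hν Q c hQ]
        exact fai_mono hν fun y hy => hy.1
      have h2 : 0 ≤ (10 * η + θ) / Q := by positivity
      linarith
    · rw [add_zero]
      have hsp : ∀ A : Set ℕ, dens U N {z | z ≡ c [MOD Q] ∧ z ∈ A} =
          ∑ j ∈ range (w !), dens U N {z | z ≡ c % Q + Q * j [MOD W] ∧ z ∈ A} := fun A =>
        (class_split hν hQ (Nat.factorial_pos w) c A).symm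
      have h1 := hsp {y | rel β lam p y ≠ σ}
      have h2 := hsp {y | p ∣ y ∧ rel β lam p y ≠ σ}
      simp only [Set.mem_ofPred_eq] at h1 h2
      rw [h1]
      have h3 : ∀ j ∈ range (w !), dens U N {z | z ≡ c % Q + Q * j [MOD W] ∧ rel β lam p z ≠ σ} ≤
          10 * (p * dens U N {z | z ≡ c % Q + Q * j [MOD W] ∧ p ∣ z ∧ rel β lam p z ≠ σ}) +
            θ / W := by
        intro j hj
        rw [mem_range] at hj
        have hu : c % Q + Q * j ∈ range W := by
          rw [mem_range]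
          calc c % Q + Q * j < Q + Q * j := Nat.add_lt_add_right (Nat.mod_lt _ hQ) _
            _ = Q * (j + 1) := by ring
            _ ≤ W := Nat.mul_le_mul_left Q hj
        refine hX2 _ hu p hp (fun hpX => hpY ?_) σ
        rw [hY, mem_biUnion]
        exact ⟨_, hu, hpX⟩
      refine (sum_le_sum h3).trans ?_
      rw [sum_add_distrib, sum_const, card_range, nsmul_eq_mul, ← mul_sum, ← mul_sum, ← h2]
      have h4 := hrel p hp1
      have h5 : 10 * ((p : ℝ) * dens U N {y | y ≡ c [MOD Q] ∧ p ∣ y ∧ rel β lam p y ≠ σ}) ≤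
          10 * (p * (η / (p * Q))) := by gcongr
      have h6 : 10 * ((p : ℝ) * (η / (p * Q))) = 10 * η / Q := by field_simp
      have h7 : (w ! : ℝ) * (θ / W) = θ / Q := by
        have hw : (0 : ℝ) < (w ! : ℝ) := by exact_mod_cast Nat.factorial_pos w
        rw [hW]
        push_cast
        field_simp
      rw [h7]
      have h8 : (10 * η + θ) / Q = 10 * η / Q + θ / Q := by ring
      linarith
  refine (sum_le_sum hbound).trans ?_
  rw [sum_add_distrib, sum_const, nsmul_eq_mul]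
  have h1 : ∑ p ∈ Pset W m, (if p ∈ Y then 1 / (Q : ℝ) else 0) ≤ Y.card * (1 / Q) := by
    rw [← sum_filter, sum_const, nsmul_eq_mul]
    refine mul_le_mul_of_nonneg_right ?_ (by positivity)
    have h2 : ((Pset W m).filter fun p => p ∈ Y).card ≤ Y.card :=
      card_le_card fun p hp => (mem_filter.1 hp).2
    exact_mod_cast h2
  have h2 : (Y.card : ℝ) * (1 / Q) ≤ 1 / ((i : ℝ) + 1) * (Pset W m).card * (1 / Q) :=
    mul_le_mul_of_nonneg_right hYc (by positivity)
  have h3 : ((Pset W m).card : ℝ) * ((10 * η + θ) / Q) ≤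
      (Pset W m).card * ((10 * η + 1 / ((i : ℝ) + 1)) / Q) := by gcongr
  have h4 : ((Pset W m).card : ℝ) * ((10 * η + 1 / ((i : ℝ) + 1)) / Q) +
      1 / ((i : ℝ) + 1) * (Pset W m).card * (1 / Q) =
        (10 * η + 2 / ((i : ℝ) + 1)) / Q * (Pset W m).card := by
    field_simp
    ring
  linarith

theorem pf_ENS : T_ENS := by
  classical
  intro Q k β ρ w i hQ hρ
  obtain ⟨c₀, hc₀, hEN⟩ := Pool.Agent.H18.T2.en2
  have hW0 : 0 < Q * w ! := Nat.mul_pos hQ (Nat.factorial_pos w)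
  have hWr : (0 : ℝ) < (Q * w ! : ℕ) := by exact_mod_cast hW0
  obtain ⟨M, wt, hM, hwt1, hDec⟩ := hEN (Q * w !) k β (1 / (((i : ℝ) + 1) * (Q * w ! : ℕ)))
    (ρ / (Q * w ! : ℕ)) (max i 1) hW0 (by positivity) (by positivity)
  have hne : ∀ m ∈ M, (Pset (Q * w !) m).Nonempty := by
    intro m hm
    obtain ⟨h1, h2, -⟩ := hM m hm
    have hm1 : 0 < m := (le_max_right _ _).trans h1
    have hmr : (0 : ℝ) < m := by exact_mod_cast hm1
    have ht : (0 : ℝ) < (Nat.totient (Q * w !) : ℝ) := by exact_mod_cast Nat.totient_pos.2 hW0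
    have h3 : (0 : ℝ) < ((Pset (Q * w !) m).card : ℝ) := lt_of_lt_of_le (by positivity) h2
    rw [← card_pos]
    exact_mod_cast h3
  refine ⟨M, wt, fun m hm => ⟨(le_max_left _ _).trans (hM m hm).1, hne m hm, (hM m hm).2.2⟩,
    hwt1, ?_⟩
  intro η hη hη1 U N hN B hBM hB
  have hν : FinAddInv (dens U N) := finAddInv_dens hN
  by_contra hcon
  push Not at hcon
  obtain ⟨m, hmB, hmDec⟩ : ∃ m ∈ B, ∀ u ∈ range (Q * w !), Dec β (dens U N) lam (Q * w !) u
      (1 / (((i : ℝ) + 1) * (Q * w ! : ℕ))) m := by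
    by_contra hno
    push Not at hno
    have h1 : ∑ m ∈ B, wt m ≤ ∑ u ∈ range (Q * w !),
        ∑ m ∈ M.filter (fun m => ¬ Dec β (dens U N) lam (Q * w !) u
          (1 / (((i : ℝ) + 1) * (Q * w ! : ℕ))) m), wt m := by
      calc ∑ m ∈ B, wt m ≤ ∑ m ∈ B, ∑ u ∈ range (Q * w !),
            (if ¬ Dec β (dens U N) lam (Q * w !) u
              (1 / (((i : ℝ) + 1) * (Q * w ! : ℕ))) m then wt m else 0) := by
            refine sum_le_sum fun m hm => ?_
            obtain ⟨u, hu, hnu⟩ := hno m hm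
            have h2 := single_le_sum
              (f := fun u => if ¬ Dec β (dens U N) lam (Q * w !) u
                (1 / (((i : ℝ) + 1) * (Q * w ! : ℕ))) m then wt m else 0)
              (fun u _ => by split_ifs <;> first | exact (hM m (hBM hm)).2.2 | exact le_refl _) hu
            simp only [if_pos hnu] at h2
            exact h2
        _ ≤ ∑ m ∈ M, ∑ u ∈ range (Q * w !),
            (if ¬ Dec β (dens U N) lam (Q * w !) u
              (1 / (((i : ℝ) + 1) * (Q * w ! : ℕ))) m then wt m else 0) := by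
            refine sum_le_sum_of_subset_of_nonneg hBM fun m hm _ => ?_
            refine sum_nonneg fun u _ => ?_
            split_ifs <;> first | exact (hM m hm).2.2 | exact le_refl _
        _ = _ := by
            rw [sum_comm]
            refine sum_congr rfl fun u _ => ?_
            rw [sum_filter]
    have h2 : ∀ u ∈ range (Q * w !),
        ∑ m ∈ M.filter (fun m => ¬ Dec β (dens U N) lam (Q * w !) u
          (1 / (((i : ℝ) + 1) * (Q * w ! : ℕ))) m), wt m ≤ ρ / (Q * w ! : ℕ) := by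
      intro u _
      exact hDec (dens U N) hν lam lam_or u _ (filter_subset _ _)
        (fun m hm => (mem_filter.1 hm).2)
    have h3 := h1.trans (sum_le_sum h2)
    rw [sum_const, card_range, nsmul_eq_mul, mul_div_cancel₀ _ hWr.ne'] at h3
    linarith
  obtain ⟨hR, hG⟩ := hB m hmB
  exact hG (en_good β η hQ hη hη1 U N hN (hne m (hBM hmB)) hR hmDec)

end Pool.Agent.H77.AG
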