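import Pool.Agent.H38.AG.Targets

/-!
# MGZ: a set of small weight on which the vectors of `Λ` are determined
-/

set_option autoImplicit false

open Pool.Agent.H38.RB Pool.Agent.H38.PS Pool.Agent.H82.RD Pool.Agent.H38.AB Pool.Agent.H38.AG

namespace Pool.Agent.H77.AG

theorem layer (T c : ℕ) (h : c ≤ T) :
    ∑ t ∈ Finset.range T, (if t < c then (1 : ℝ) else 0) = c := by
  rw [← Finset.sum_filter, Finset.sum_const, nsmul_eq_mul, mul_one]
  have : (Finset.range T).filter (fun t => t < c) = Finset.range c := by
    ext t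
    simp only [Finset.mem_filter, Finset.mem_range]
    omega
  rw [this, Finset.card_range]

theorem pf_MGZ : T_MGZ := by
  classical
  intro ι _ _ Λ ν c hν
  obtain ⟨e⟩ : Nonempty (ι ≃ Fin (Fintype.card ι)) := ⟨Fintype.equivFin ι⟩
  obtain ⟨K, hK⟩ : ∃ K : ι → ℕ, K = fun i => c i * Fintype.card ι + (e i : ℕ) := ⟨_, rfl⟩
  have hlt : ∀ i j, c i < c j → K i < K j := by
    intro i j h
    have h1 := (e i).2
    have h2 : (c i + 1) * Fintype.card ι ≤ c j * Fintype.card ι := Nat.mul_le_mul_right _ h
    rw [hK]
    show c i * Fintype.card ι + (e i : ℕ) < c j * Fintype.card ι + (e j : ℕ)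
    nlinarith
  have hinj : ∀ i j, K i = K j → i = j := by
    intro i j h
    have hc : c i = c j := by
      rcases lt_trichotomy (c i) (c j) with h1 | h1 | h1
      · exact absurd h (hlt _ _ h1).ne
      · exact h1
      · exact absurd h.symm (hlt _ _ h1).ne
    rw [hK] at h
    have h2 : c i * Fintype.card ι + (e i : ℕ) = c j * Fintype.card ι + (e j : ℕ) := h
    rw [hc] at h2
    exact e.injective (Fin.ext (by omega))
  obtain ⟨Z, hZ⟩ : ∃ Z : Finset ι, Z = Finset.univ.filter fun i =>
      ∃ u ∈ Λ, (∀ j, K j < K i → u j = 0) ∧ u i ≠ 0 := ⟨_, rfl⟩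
  have hmem : ∀ i, i ∈ Z ↔ ∃ u ∈ Λ, (∀ j, K j < K i → u j = 0) ∧ u i ≠ 0 := by
    intro i
    rw [hZ]
    simp
  refine ⟨Z, ?_, ?_⟩
  · intro v hv h0
    by_contra hne
    have h1 : ∃ n, ∃ i, K i = n ∧ v i ≠ 0 := by
      by_contra h
      push Not at h
      exact hne (funext fun i => h _ i rfl)
    obtain ⟨i, hi, hvi⟩ := Nat.find_spec h1
    refine hvi (h0 i ((hmem i).2 ⟨v, hv, fun j hj => ?_, hvi⟩))
    by_contra hvj
    rw [hi] at hj
    exact Nat.find_min h1 hj ⟨j, rfl, hvj⟩
  · -- the number of elements in an upper segment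
    have hcard : ∀ t : ℕ, ((Z.filter fun i => t < c i).card : ℝ) ≤
        ∑ i ∈ Finset.univ.filter (fun i => t < c i), ν i := by
      intro t
      obtain ⟨U, hU⟩ : ∃ U : Finset ι, U = Finset.univ.filter fun i => t < c i := ⟨_, rfl⟩
      obtain ⟨W, hW⟩ : ∃ W : Finset ι, W = Z.filter fun i => t < c i := ⟨_, rfl⟩
      rw [← hU, ← hW]
      refine le_trans ?_ (hν U)
      rw [Nat.cast_le]
      have hWm : ∀ i ∈ W, i ∈ Z ∧ t < c i := by
        intro i hi
        rw [hW, Finset.mem_filter] at hi
        exact hi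
      have hch : ∀ i : W, ∃ u, u ∈ Λ ∧ (∀ j, K j < K i → u j = 0) ∧ u i ≠ 0 := by
        intro i
        have h1 := hWm i i.2
        obtain ⟨u, h2, h3, h4⟩ := (hmem i).1 h1.1
        exact ⟨u, h2, h3, h4⟩
      choose u hu1 hu2 hu3 using hch
      have hu4 : ∀ i : W, u i ∈ Λ ⊓ sp0 U := by
        intro i
        refine ⟨hu1 i, fun j hj => hu2 i j ?_⟩
        have h1 := hWm i i.2
        refine hlt _ _ (lt_of_le_of_lt ?_ h1.2)
        by_contra h2
        rw [not_le] at h2
        exact hj (by rw [hU, Finset.mem_filter]; exact ⟨Finset.mem_univ _, h2⟩)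
      have hli : LinearIndependent ℚ (fun i : W => (⟨u i, hu4 i⟩ : ↥(Λ ⊓ sp0 U))) := by
        refine LinearIndependent.of_comp (Λ ⊓ sp0 U).subtype ?_
        rw [Fintype.linearIndependent_iff]
        intro g hg
        have key : ∀ n : ℕ, ∀ i : W, K i = n → g i = 0 := by
          intro n
          induction n using Nat.strong_induction_on with
          | _ n ih =>
            intro i hi
            have h1 := congrFun hg i
            rw [Finset.sum_apply, Finset.sum_eq_single i] at h1
            · have h2 : g i * u i i = 0 := h1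
              rcases mul_eq_zero.1 h2 with h3 | h3
              · exact h3
              · exact absurd h3 (hu3 i)
            · intro j _ hji
              show g j * u j i = 0
              rcases lt_trichotomy (K j) (K i) with h2 | h2 | h2
              · rw [ih (K j) (by rw [← hi]; exact h2) j rfl, zero_mul]
              · exact absurd (Subtype.ext (hinj _ _ h2)) hji
              · rw [hu2 j i h2, mul_zero]
            · intro h
              exact absurd (Finset.mem_univ _) h
        exact fun i => key _ i rfl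
      have h1 := hli.fintype_card_le_finrank
      rw [Fintype.card_coe] at h1
      exact h1
    obtain ⟨T, hT⟩ : ∃ T : ℕ, T = ∑ i, c i := ⟨_, rfl⟩
    have hcT : ∀ i, c i ≤ T := by
      intro i
      rw [hT]
      exact Finset.single_le_sum (f := c) (fun _ _ => Nat.zero_le _) (Finset.mem_univ i)
    calc ∑ i ∈ Z, (c i : ℝ) = ∑ i ∈ Z, ∑ t ∈ Finset.range T, (if t < c i then (1 : ℝ) else 0) :=
          Finset.sum_congr rfl fun i _ => (layer T (c i) (hcT i)).symm
      _ = ∑ t ∈ Finset.range T, ((Z.filter fun i => t < c i).card : ℝ) := by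
          rw [Finset.sum_comm]
          refine Finset.sum_congr rfl fun t _ => ?_
          rw [← Finset.sum_filter, Finset.sum_const, nsmul_eq_mul, mul_one]
      _ ≤ ∑ t ∈ Finset.range T, ∑ i ∈ Finset.univ.filter (fun i => t < c i), ν i :=
          Finset.sum_le_sum fun t _ => hcard t
      _ = ∑ i, ν i * ∑ t ∈ Finset.range T, (if t < c i then (1 : ℝ) else 0) := by
          simp only [Finset.mul_sum]
          rw [Finset.sum_comm]
          refine Finset.sum_congr rfl fun t _ => ?_
          rw [Finset.sum_filter]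
          refine Finset.sum_congr rfl fun i _ => ?_
          split_ifs <;> simp
      _ = ∑ i, ν i * c i := Finset.sum_congr rfl fun i _ => by rw [layer T (c i) (hcT i)]

end Pool.Agent.H77.AG
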